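import Pool.Agent.E8helper50.SR.S4
import Pool.Agent.E8helper64.SR.EPS

/-! # Project SR: EPT -/

set_option autoImplicit false

universe u

namespace Pool.Agent.E8helper36.SR

open Pool.Agent.E8helper50.SR Pool.Agent.E8helper64.SR

/-- adjoining one odd element `ε` with `ε² = 0`: an odd letter is replaced by an even one. -/
lemma eps_odd (hX : S_EPX.{u}) (hK : S_KSG) (F : Type u) [Field F] (A : SAlg F) :
    ∃ (A' : SAlg F) (ι : A →ₗ[F] A'),
    (∀ x y, ι (x * y) = ι x * ι y) ∧ (∀ (i : ZMod 2), ∀ x ∈ A.gr i, ι x ∈ A'.gr i) ∧
    (∀ g : MPoly F, Sat A g → Sat A' g) ∧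
    (∀ (f : MPoly F) (p : Fin (f.n + 1) → ZMod 2) (a : Fin (f.n + 1) → A) (j : Fin (f.n + 1)),
      (∀ i, a i ∈ A.gr (p i)) → p j = 1 → sev f p a ≠ 0 →
      ∃ y ∈ A'.gr 0, sev f (Function.update p j 0) (Function.update (fun i => ι (a i)) j y) ≠ 0) := by
  obtain ⟨A', ι, κ, h1, h2, h3, h4, h5, h6, h7, h8, h9⟩ := hX F A
  refine ⟨A', ι, h1, h2, ?_, ?_⟩
  · intro g hg p z hz
    choose a ha b hb hzab using fun i => h5 (p i) (z i) (hz i)
    have hzz : z = fun i => ι (a i) + κ (b i) := funext hzab
    rw [hzz, sev_add ι κ h1 h6 h7 h8 h9 g p a b ha, hg p a ha, map_zero, zero_add]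
    apply Finset.sum_eq_zero
    intro j _
    rcases z2 (p j) with hj | hj
    · rw [(sev_upd ι κ hK h1 h6 h8 h9 g p a j hj (fun i _ => ha i) (b j)).2,
        hg (Function.update p j 1) (Function.update a j (b j)), map_zero, smul_zero]
      intro i
      by_cases hi : i = j
      · subst hi
        rw [Function.update_self, Function.update_self]
        have := hb i
        rw [hj] at this
        simpa using this
      · rw [Function.update_of_ne hi, Function.update_of_ne hi]
        exact ha i
    · have hp : p = Function.update (Function.update p j 0) j 1 := by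
        rw [Function.update_idem, ← hj, Function.update_eq_self]
      have hsev := (sev_upd ι κ hK h1 h6 h8 h9 g (Function.update p j 0) a j
        (Function.update_self _ _ _)
        (fun i hi => by rw [Function.update_of_ne hi]; exact ha i) (b j)).1
      rw [← hp] at hsev
      rw [hsev, hg (Function.update p j 0) (Function.update a j (b j)), map_zero, smul_zero]
      intro i
      by_cases hi : i = j
      · subst hi
        rw [Function.update_self, Function.update_self]
        have := hb i
        rw [hj] at this
        have h11 : (1 : ZMod 2) + 1 = 0 := by decide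
        rwa [h11] at this
      · rw [Function.update_of_ne hi, Function.update_of_ne hi]
        exact ha i
  · intro f p a j ha hj hne
    refine ⟨κ (a j), ?_, ?_⟩
    · have := h3 1 (a j) (by rw [← hj]; exact ha j)
      have h11 : (1 : ZMod 2) + 1 = 0 := by decide
      rwa [h11] at this
    · have hp : Function.update (Function.update p j 0) j 1 = p := by
        rw [Function.update_idem, ← hj, Function.update_eq_self]
      rw [(sev_upd ι κ hK h1 h6 h8 h9 f (Function.update p j 0) a j (Function.update_self _ _ _)
        (fun i hi => by rw [Function.update_of_ne hi]; exact ha i) (a j)).2, hp,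
        Function.update_eq_self]
      intro h0
      have hR := sq_one (fun i : Fin (f.n + 1) => j < i ∧ Function.update p j 0 i = 1)
      change rs (Function.update p j 0) j * rs (Function.update p j 0) j = 1 at hR
      have h10 : κ (sev f p a) = 0 := by
        have := congrArg (fun z => rs (Function.update p j 0) j • z) h0
        simp only [smul_smul, hR, one_smul, smul_zero] at this
        exact this
      exact hne (h4 (by rw [h10, map_zero]))

theorem t_EPT : S_EPX.{u} → S_KSG → S_EPT.{u} := by
  intro hX hK F _ A f p a D ha hD hne
  classical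
  induction D using Finset.induction_on with
  | empty =>
    refine ⟨A, LinearMap.id, fun _ => 0, fun _ _ => rfl, fun _ _ h => h, fun _ h => h,
      fun _ => (A.gr 0).zero_mem, ?_⟩
    simpa using hne
  | insert j D hj ih =>
    obtain ⟨A', ι, y, h1, h2, h3, h4, h5⟩ := ih (fun i hi => hD i (Finset.mem_insert_of_mem hi))
    obtain ⟨A'', ι', g1, g2, g3, g4⟩ := eps_odd hX hK F A'
    obtain ⟨z, hz, hz2⟩ := g4 f (fun i => if i ∈ D then 0 else p i)
      (fun i => if i ∈ D then y i else ι (a i)) j (by
        intro i
        by_cases hi : i ∈ D
        · simp only [if_pos hi]; exact h4 i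
        · simp only [if_neg hi]; exact h2 _ _ (ha i)) (by
        simp only [if_neg hj]
        exact hD j (Finset.mem_insert_self _ _)) h5
    refine ⟨A'', ι'.comp ι, fun i => if i = j then z else ι' (y i), fun u v => ?_, fun i x hx => ?_,
      fun g hg => g3 g (h3 g hg), fun i => ?_, ?_⟩
    · simp only [LinearMap.comp_apply]
      rw [h1, g1]
    · exact g2 _ _ (h2 _ _ hx)
    · by_cases hi : i = j
      · simp only [if_pos hi]; exact hz
      · simp only [if_neg hi]; exact g2 _ _ (h4 i)
    · have e1 : (fun i => if i ∈ insert j D then (0 : ZMod 2) else p i) =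
          Function.update (fun i => if i ∈ D then (0 : ZMod 2) else p i) j 0 := by
        funext i
        by_cases hi : i = j
        · subst hi; simp
        · rw [Function.update_of_ne hi]
          simp [Finset.mem_insert, hi]
      have e2 : (fun i => if i ∈ insert j D then (if i = j then z else ι' (y i)) else
          (ι'.comp ι) (a i)) =
          Function.update (fun i => ι' (if i ∈ D then y i else ι (a i))) j z := by
        funext i
        by_cases hi : i = j
        · subst hi; simp
        · rw [Function.update_of_ne hi]
          by_cases hiD : i ∈ D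
          · simp [Finset.mem_insert, hi, hiD]
          · simp [Finset.mem_insert, hi, hiD]
      rw [e1, e2]
      exact hz2

end Pool.Agent.E8helper36.SR
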